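import Pool.Agent.helper3.FS.SpecE

/-!
# Row fse:KCH (helper20): the kernel bound for a chain
-/

set_option autoImplicit false

open Complex Metric Set Filter Topology MeasureTheory
open HY (UD T S hd UN RM)
open RT

noncomputable section

namespace FSE

theorem KCH (hK : KRN_stmt) : KCH_stmt := by
  intro s hs0 hs1
  obtain ⟨c₀, h0, h1, hk⟩ := hK s hs0 hs1
  refine ⟨c₀, h0, h1, ?_⟩
  intro N W F c hC z hz z' hz'
  have hmem : ∀ x ∈ W 0, ∀ j ≤ N, cmp F j x ∈ W j := by
    intro x hx j
    induction j with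
    | zero => exact fun _ => hx
    | succ j ih => exact fun hj => hC.map j hj (ih (Nat.le_of_succ_le hj))
  have hmain : ∀ n ≤ N, bl (W n) (cmp F n z) (cmp F n z') ≤
      bl (W 0) z z' * Real.exp (-(c₀ * ∑ j ∈ Finset.range n, (1 - bl (W j) (cmp F j z) (c j)) * (1 - bl (W j) (cmp F j z') (c j)))) := by
    intro n
    induction n with
    | zero =>
      intro _
      rw [Finset.range_zero, Finset.sum_empty, mul_zero, neg_zero, Real.exp_zero, mul_one]
      exact le_refl _
    | succ n ih =>
      intro hn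
      have hlt : n < N := hn
      have e1 := ih hlt.le
      have e2 := hk (W n) (W (n + 1)) (F n) (hC.td n hlt.le) (hC.td (n + 1) hn) (hC.dif n hlt) (hC.map n hlt) (c n) (hC.mem n hlt) (hC.cri n hlt)
        (cmp F n z) (hmem z hz n hlt.le) (cmp F n z') (hmem z' hz' n hlt.le)
      have e3 := mul_le_mul_of_nonneg_right e1 (Real.exp_pos (-(c₀ * (1 - bl (W n) (cmp F n z) (c n)) * (1 - bl (W n) (cmp F n z') (c n))))).le
      refine (e2.trans e3).trans (le_of_eq ?_)
      rw [mul_assoc, ← Real.exp_add, Finset.sum_range_succ]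
      congr 2
      ring
  exact ⟨hmem z hz, hmain N le_rfl⟩

end FSE
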